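import Pool.Agent.Y976.SG.Main

/-!
Project SG: from the one-sided inequality to the decomposition of correlation matrices.
-/

set_option autoImplicit false

namespace Pool.Agent.Y976.SG

open Pool.Agent.H809R2.GI Matrix

/-- the matrices `x xᵀ` with `x` a vector of signs -/
def signMatrices (k : ℕ) : Set (Matrix (Fin k) (Fin k) ℝ) :=
  {Z | ∃ x : Fin k → ℝ, (∀ i, x i = 1 ∨ x i = -1) ∧ Z = Matrix.vecMulVec x x}

lemma signMatrices_finite (k : ℕ) : (signMatrices k).Finite := by
  have h : signMatrices k ⊆ Set.range (fun s : Fin k → Bool =>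
      Matrix.vecMulVec (fun i => if s i then (1 : ℝ) else -1) (fun i => if s i then (1 : ℝ) else -1)) := by
    rintro Z ⟨x, hx, rfl⟩
    refine ⟨fun i => decide (x i = 1), ?_⟩
    have e : (fun i => if (decide (x i = 1)) = true then (1 : ℝ) else -1) = x := by
      funext i
      rcases hx i with h | h
      · simp [h]
      · rw [h]; norm_num
    simp only [e]
  exact (Set.finite_range _).subset h

/-- Every correlation matrix is `(π/2) Z₁ - (π/2 - 1) Z₂` with `Z₁`, `Z₂` convex combinations of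
the matrices `x xᵀ`. -/
theorem decomposition (hone : ∀ (k : ℕ) (S B : Matrix (Fin k) (Fin k) ℝ), IsCorrelation S →
      ∀ (q q' : ℝ), (∀ x : Fin k → ℝ, (∀ i, x i = 1 ∨ x i = -1) →
        q ≤ ∑ i, ∑ j, B i j * (x i * x j) ∧ ∑ i, ∑ j, B i j * (x i * x j) ≤ q') →
      Real.pi / 2 * q - (Real.pi / 2 - 1) * q' ≤ ∑ i, ∑ j, B i j * S i j ∧
        ∑ i, ∑ j, B i j * S i j ≤ Real.pi / 2 * q' - (Real.pi / 2 - 1) * q)
    (k : ℕ) (S : Matrix (Fin k) (Fin k) ℝ) (hS : IsCorrelation S) :
    ∃ Z₁ ∈ convexHull ℝ (signMatrices k), ∃ Z₂ ∈ convexHull ℝ (signMatrices k),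
      S = (Real.pi / 2) • Z₁ - (Real.pi / 2 - 1) • Z₂ := by
  have hpi := Real.pi_gt_three
  -- work in the space of functions
  let E := Fin k → Fin k → ℝ
  let C : Set E := signMatrices k
  have hfin : C.Finite := signMatrices_finite k
  have hcomp : IsCompact (convexHull ℝ C) := hfin.isCompact_convexHull ℝ
  let Φ : E × E → E := fun p => (Real.pi / 2) • p.1 - (Real.pi / 2 - 1) • p.2
  have hΦ : Continuous Φ := by
    show Continuous fun p : E × E => (Real.pi / 2) • p.1 - (Real.pi / 2 - 1) • p.2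
    fun_prop
  let K : Set E := Φ '' (convexHull ℝ C ×ˢ convexHull ℝ C)
  have hK : IsCompact K := (hcomp.prod hcomp).image hΦ
  have hKc : Convex ℝ K := by
    have hlin : IsLinearMap ℝ Φ := by
      constructor
      · intro x y
        show (Real.pi / 2) • (x + y).1 - (Real.pi / 2 - 1) • (x + y).2 = _
        simp only [Prod.fst_add, Prod.snd_add, smul_add, Φ]
        abel
      · intro c x
        show (Real.pi / 2) • (c • x).1 - (Real.pi / 2 - 1) • (c • x).2 = _
        simp only [Prod.smul_fst, Prod.smul_snd, smul_sub, Φ]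
        rw [smul_comm (Real.pi / 2) c, smul_comm (Real.pi / 2 - 1) c]
    exact ((convex_convexHull ℝ C).prod (convex_convexHull ℝ C)).is_linear_image hlin
  by_contra hcon
  have hSK : (S : E) ∉ K := by
    rintro ⟨⟨Z₁, Z₂⟩, ⟨h1, h2⟩, h3⟩
    exact hcon ⟨Z₁, h1, Z₂, h2, h3.symm⟩
  obtain ⟨f, u, hu1, hu2⟩ := geometric_hahn_banach_point_closed hKc hK.isClosed hSK
  -- the matrix of `f`
  let B : Matrix (Fin k) (Fin k) ℝ := fun i j => f (Pi.single i (Pi.single j 1))
  have hf : ∀ T : E, f T = ∑ i, ∑ j, B i j * T i j := by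
    intro T
    have e : T = ∑ i, ∑ j, T i j • (Pi.single i (Pi.single j (1 : ℝ)) : E) := by
      funext a b
      rw [Finset.sum_apply, Finset.sum_apply, Finset.sum_eq_single a, Finset.sum_apply,
        Finset.sum_apply, Finset.sum_eq_single b]
      · simp
      · intro j _ hj
        simp [Pi.single_apply, hj.symm]
      · intro h; exact absurd (Finset.mem_univ _) h
      · intro i _ hi
        rw [Finset.sum_apply, Finset.sum_apply]
        refine Finset.sum_eq_zero fun j _ => ?_
        simp [Pi.single_apply, hi.symm]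
      · intro h; exact absurd (Finset.mem_univ _) h
    conv_lhs => rw [e]
    rw [map_sum]
    refine Finset.sum_congr rfl fun i _ => ?_
    rw [map_sum]
    refine Finset.sum_congr rfl fun j _ => ?_
    rw [map_smul, smul_eq_mul, mul_comm]
  -- extreme values of `f` on the sign matrices
  have hne : C.Nonempty := ⟨_, fun _ => 1, fun _ => Or.inl rfl, rfl⟩
  obtain ⟨Z₂, hZ₂, hmax⟩ := Set.exists_max_image C f hfin hne
  obtain ⟨Z₁, hZ₁, hmin⟩ := Set.exists_min_image C f hfin hne
  have h4 := hone k S B hS (f Z₁) (f Z₂) (fun x hx => by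
    have hx' : (Matrix.vecMulVec x x : E) ∈ C := ⟨x, hx, rfl⟩
    have e := hf (Matrix.vecMulVec x x : E)
    have e' : ∑ i, ∑ j, B i j * (x i * x j) = f (Matrix.vecMulVec x x : E) := by
      rw [e]
      simp [Matrix.vecMulVec_apply]
    rw [e']
    exact ⟨hmin _ hx', hmax _ hx'⟩)
  rw [← hf] at h4
  have h5 := hu2 (Φ (Z₁, Z₂)) ⟨(Z₁, Z₂), ⟨subset_convexHull ℝ C hZ₁, subset_convexHull ℝ C hZ₂⟩, rfl⟩
  have h6 : f (Φ (Z₁, Z₂)) = Real.pi / 2 * f Z₁ - (Real.pi / 2 - 1) * f Z₂ := by
    show f ((Real.pi / 2) • Z₁ - (Real.pi / 2 - 1) • Z₂) = _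
    rw [map_sub, map_smul, map_smul, smul_eq_mul, smul_eq_mul]
  rw [h6] at h5
  linarith [h4.1]

end Pool.Agent.Y976.SG
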