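import Pool.Agent.Y976.SG.Dec

/-!
Project SG: sharpness.
-/

set_option autoImplicit false

namespace Pool.Agent.Y976.SG

open Pool.Agent.H809R2.GI Matrix

lemma rankOneMax_nonneg {𝕜 : Type} [RCLike 𝕜] {k : ℕ} (B : Matrix (Fin k) (Fin k) 𝕜) :
    0 ≤ rankOneMax B := by
  obtain ⟨x, _, hx⟩ := (rankOneMax_isGreatest B).1
  rw [hx]
  exact norm_nonneg _

theorem lower_real (K : ℝ) (hK : ∀ (k : ℕ) (S B : Matrix (Fin k) (Fin k) ℝ), IsCorrelation S →
    ‖(Bᴴ * S).trace‖ ≤ K * rankOneMax B) : Real.pi - 1 ≤ K := by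
  by_contra hcon
  push Not at hcon
  have hpi := Real.pi_gt_three
  obtain ⟨k, S, B, hS, hlt⟩ := real_lower (max K 0) (le_max_right _ _)
    (max_lt hcon (by linarith))
  have h := hK k S B hS
  have h2 : K * rankOneMax B ≤ max K 0 * rankOneMax B :=
    mul_le_mul_of_nonneg_right (le_max_left _ _) (rankOneMax_nonneg B)
  linarith

theorem lower_complex (K : ℝ) (hK : ∀ (k : ℕ) (S B : Matrix (Fin k) (Fin k) ℂ),
    IsCorrelation S → ‖(Bᴴ * S).trace‖ ≤ K * rankOneMax B) : 8 / Real.pi - 1 ≤ K := by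
  by_contra hcon
  push Not at hcon
  have hpi := Real.pi_lt_four
  have hpi0 := Real.pi_pos
  have h8 : 0 < 8 / Real.pi - 1 := by
    rw [sub_pos, lt_div_iff₀ hpi0]
    linarith
  obtain ⟨k, S, B, hS, hlt⟩ := complex_lower (max K 0) (le_max_right _ _)
    (max_lt hcon h8)
  have h := hK k S B hS
  have h2 : K * rankOneMax B ≤ max K 0 * rankOneMax B :=
    mul_le_mul_of_nonneg_right (le_max_left _ _) (rankOneMax_nonneg B)
  linarith

theorem least_real (hup : ∀ (k : ℕ) (S B : Matrix (Fin k) (Fin k) ℝ), IsCorrelation S →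
      |∑ i, ∑ j, B i j * S i j| ≤ (Real.pi - 1) * rankOneMax B) :
    IsLeast {K : ℝ | ∀ (k : ℕ) (S B : Matrix (Fin k) (Fin k) ℝ), IsCorrelation S →
      ‖(Bᴴ * S).trace‖ ≤ K * rankOneMax B} (Real.pi - 1) := by
  refine ⟨fun k S B hS => ?_, fun K hK => lower_real K hK⟩
  rw [trace_eq, Real.norm_eq_abs]
  exact hup k S B hS

/-- `|tr (Bᴴ Z)| ≤ rankOneMax B` for convex combinations of sign matrices. -/
lemma hull_le {k : ℕ} (B Z : Matrix (Fin k) (Fin k) ℝ) (hZ : Z ∈ convexHull ℝ (signMatrices k)) :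
    |(Bᴴ * Z).trace| ≤ rankOneMax B := by
  have hconv : Convex ℝ {Z : Matrix (Fin k) (Fin k) ℝ | |(Bᴴ * Z).trace| ≤ rankOneMax B} := by
    intro X hX Y hY a b ha hb hab
    simp only [Set.mem_ofPred_eq] at hX hY ⊢
    rw [Matrix.mul_add, Matrix.mul_smul, Matrix.mul_smul, Matrix.trace_add, Matrix.trace_smul,
      Matrix.trace_smul, smul_eq_mul, smul_eq_mul]
    calc |a * (Bᴴ * X).trace + b * (Bᴴ * Y).trace| ≤
        |a * (Bᴴ * X).trace| + |b * (Bᴴ * Y).trace| := abs_add_le _ _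
      _ = a * |(Bᴴ * X).trace| + b * |(Bᴴ * Y).trace| := by
          rw [abs_mul, abs_mul, abs_of_nonneg ha, abs_of_nonneg hb]
      _ ≤ a * rankOneMax B + b * rankOneMax B :=
          add_le_add (mul_le_mul_of_nonneg_left hX ha) (mul_le_mul_of_nonneg_left hY hb)
      _ = rankOneMax B := by rw [← add_mul, hab, one_mul]
  have hsub : signMatrices k ⊆ {Z : Matrix (Fin k) (Fin k) ℝ | |(Bᴴ * Z).trace| ≤ rankOneMax B} := by
    rintro _ ⟨x, hx, rfl⟩
    have h := (rankOneMax_isGreatest B).2 ⟨x, fun i => by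
      rcases hx i with h | h <;> rw [h] <;> simp, rfl⟩
    rw [Real.norm_eq_abs, show star x = x by funext i; simp] at h
    exact h
  exact convexHull_min hsub hconv hZ

/-- the constant of the decomposition cannot be improved -/
theorem least_gamma (hdec : ∀ (k : ℕ) (S : Matrix (Fin k) (Fin k) ℝ), IsCorrelation S →
      ∃ Z₁ ∈ convexHull ℝ (signMatrices k), ∃ Z₂ ∈ convexHull ℝ (signMatrices k),
        S = (Real.pi / 2) • Z₁ - (Real.pi / 2 - 1) • Z₂) :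
    IsLeast {γ : ℝ | 0 ≤ γ ∧ ∀ (k : ℕ) (S : Matrix (Fin k) (Fin k) ℝ), IsCorrelation S →
      ∃ Z₁ ∈ convexHull ℝ (signMatrices k), ∃ Z₂ ∈ convexHull ℝ (signMatrices k),
        S = (1 + γ) • Z₁ - γ • Z₂} (Real.pi / 2 - 1) := by
  have hpi := Real.pi_gt_three
  refine ⟨⟨by linarith, fun k S hS => ?_⟩, ?_⟩
  · obtain ⟨Z₁, h1, Z₂, h2, h3⟩ := hdec k S hS
    refine ⟨Z₁, h1, Z₂, h2, ?_⟩
    rw [show 1 + (Real.pi / 2 - 1) = Real.pi / 2 by ring]
    exact h3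
  · rintro γ ⟨hγ0, hγ⟩
    have h := lower_real (1 + 2 * γ) (fun k S B hS => by
      obtain ⟨Z₁, h1, Z₂, h2, rfl⟩ := hγ k S hS
      rw [Matrix.mul_sub, Matrix.mul_smul, Matrix.mul_smul, Matrix.trace_sub, Matrix.trace_smul,
        Matrix.trace_smul, smul_eq_mul, smul_eq_mul, Real.norm_eq_abs]
      calc |(1 + γ) * (Bᴴ * Z₁).trace - γ * (Bᴴ * Z₂).trace| ≤
          |(1 + γ) * (Bᴴ * Z₁).trace| + |γ * (Bᴴ * Z₂).trace| := abs_sub _ _
        _ = (1 + γ) * |(Bᴴ * Z₁).trace| + γ * |(Bᴴ * Z₂).trace| := by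
            rw [abs_mul, abs_mul, abs_of_nonneg hγ0, abs_of_nonneg (by linarith : 0 ≤ 1 + γ)]
        _ ≤ (1 + γ) * rankOneMax B + γ * rankOneMax B :=
            add_le_add (mul_le_mul_of_nonneg_left (hull_le B Z₁ h1) (by linarith))
              (mul_le_mul_of_nonneg_left (hull_le B Z₂ h2) hγ0)
        _ = (1 + 2 * γ) * rankOneMax B := by ring)
    linarith

theorem kg_real : IsLeast {K : ℝ | IsGrothendieckBound ℝ K} (KG ℝ) ∧ KG ℝ < Real.pi - 1 := by
  have hleast := isLeast_KG ℝ ⟨_, krivine⟩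
  exact ⟨hleast, lt_of_le_of_lt (hleast.2 krivine) krivine_lt⟩

theorem kg_complex : IsLeast {K : ℝ | IsGrothendieckBound ℂ K} (KG ℂ) ∧
    KG ℂ < 8 / Real.pi - 1 := by
  have hleast := isLeast_KG ℂ ⟨_, pisier⟩
  exact ⟨hleast, lt_of_le_of_lt (hleast.2 pisier) pisier_lt⟩

end Pool.Agent.Y976.SG
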