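import Pool.Agent.Y976.SG.Stm
import Pool.Agent.H809R2.GI.Final

/-!
Project SG: assembly.
-/

set_option autoImplicit false

namespace Pool.Agent.Y976.SG

open Pool.Agent.H809R2.GI Matrix

lemma Psi_mem {t : ℝ} (ht : |t| ≤ 1) : Psi t ∈ Set.Icc (-(Real.pi / 2)) (Real.pi / 2) := by
  have hpi := Real.pi_gt_three
  have hs0 : 0 ≤ Real.sqrt (1 - t ^ 2) := Real.sqrt_nonneg _
  have hs1 : Real.sqrt (1 - t ^ 2) ≤ 1 := by
    rw [Real.sqrt_le_iff]
    exact ⟨by norm_num, by nlinarith [sq_nonneg t]⟩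
  have h1 := Real.neg_pi_div_two_le_arcsin t
  have h2 := Real.arcsin_le_pi_div_two t
  rw [abs_le] at ht
  unfold Psi
  rcases le_total 0 t with h | h
  · have h3 : 0 ≤ Real.arcsin t := Real.arcsin_nonneg.2 h
    have h4 : 0 ≤ t * Real.sqrt (1 - t ^ 2) := mul_nonneg h hs0
    have h5 : t * Real.sqrt (1 - t ^ 2) ≤ 1 * 1 := mul_le_mul ht.2 hs1 hs0 (by norm_num)
    constructor <;> linarith
  · have h3 : Real.arcsin t ≤ 0 := Real.arcsin_nonpos.2 h
    have h4 : 0 ≤ (-t) * Real.sqrt (1 - t ^ 2) := mul_nonneg (by linarith) hs0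
    have h5 : (-t) * Real.sqrt (1 - t ^ 2) ≤ 1 * 1 := mul_le_mul (by linarith) hs1 hs0 (by norm_num)
    constructor <;> linarith

lemma trace_eq {k : ℕ} (S B : Matrix (Fin k) (Fin k) ℝ) :
    (Bᴴ * S).trace = ∑ i, ∑ j, B i j * S i j := by
  simp only [Matrix.trace, Matrix.diag_apply, Matrix.mul_apply, Matrix.conjTranspose_apply,
    star_trivial]
  rw [Finset.sum_comm]

/-- The upper bound in the symmetric Grothendieck inequality. -/
theorem upper (hPD : S_PD) (hENT : S_ENT) (hGRO : S_GRO) (hSER : S_SER) (hVR : S_VR)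
    (h1 : S_AV1) (h2 : S_AV2) (k : ℕ) (S B : Matrix (Fin k) (Fin k) ℝ) (hS : IsCorrelation S) :
    |∑ i, ∑ j, B i j * S i j| ≤ (Real.pi - 1) * rankOneMax B := by
  have hpi := Real.pi_pos
  obtain ⟨a, ha0, ha1, ha⟩ := hSER
  have key : ∀ r : ℝ, 0 < r → r ≤ 1 →
      |∑ p : Fin k × Fin k, B p.1 p.2 * Psi (vr r (S p.1 p.2))| ≤
        Real.pi / 2 * rankOneMax B := by
    intro r hr hr1
    obtain ⟨b, hb0, hb1, hb⟩ := hVR r hr hr1
    have hV := hPD k S hS b hb0 hb1 (vr r) hb
    have hG := hPD k _ hV a ha0 ha1 (fun t => Real.sin (Psi t)) ha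
    have h := hGRO k _ B hG
    have e : ∀ i j, Real.arcsin ((Matrix.of fun i j => Real.sin (Psi
        ((Matrix.of fun i j => vr r (S i j)) i j))) i j) = Psi (vr r (S i j)) := by
      intro i j
      have hm := Psi_mem (hENT k _ hV i j)
      simp only [Matrix.of_apply] at hm ⊢
      exact Real.arcsin_sin hm.1 hm.2
    simp only [e] at h
    rw [Fintype.sum_prod_type]
    exact h
  have hA := h1 (Fin k × Fin k) (fun p => B p.1 p.2) (fun p => S p.1 p.2)
    (Real.pi / 2 * rankOneMax B) (fun p => hENT k S hS p.1 p.2) key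
  have hB := h2 (Fin k × Fin k) (fun p => B p.1 p.2) (fun p => S p.1 p.2)
    (Real.pi / 2 * rankOneMax B) (fun p => hENT k S hS p.1 p.2) hA
  have hC := hGRO k S B hS
  have e1 : (1 - 2 / Real.pi) * (Real.pi / 2 * rankOneMax B) =
      (Real.pi / 2 - 1) * rankOneMax B := by
    field_simp
  rw [e1, Fintype.sum_prod_type] at hB
  have e2 : ∑ i, ∑ j, B i j * S i j = (∑ i, ∑ j, B i j * Real.arcsin (S i j)) -
      ∑ i, ∑ j, B i j * (Real.arcsin (S i j) - S i j) := by
    rw [← Finset.sum_sub_distrib]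
    refine Finset.sum_congr rfl fun i _ => ?_
    rw [← Finset.sum_sub_distrib]
    refine Finset.sum_congr rfl fun j _ => ?_
    ring
  rw [e2]
  calc |(∑ i, ∑ j, B i j * Real.arcsin (S i j)) -
        ∑ i, ∑ j, B i j * (Real.arcsin (S i j) - S i j)| ≤
      |∑ i, ∑ j, B i j * Real.arcsin (S i j)| +
        |∑ i, ∑ j, B i j * (Real.arcsin (S i j) - S i j)| := abs_sub _ _
    _ ≤ Real.pi / 2 * rankOneMax B + (Real.pi / 2 - 1) * rankOneMax B := add_le_add hC hB
    _ = (Real.pi - 1) * rankOneMax B := by ring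

lemma rankOne_form {k : ℕ} (B : Matrix (Fin k) (Fin k) ℝ) (x : Fin k → ℝ) :
    (Bᴴ * Matrix.vecMulVec x (star x)).trace = ∑ i, ∑ j, B i j * (x i * x j) := by
  rw [trace_eq]
  simp [Matrix.vecMulVec_apply]

/-- The one-sided form. -/
theorem one_sided (hup : ∀ (k : ℕ) (S B : Matrix (Fin k) (Fin k) ℝ), IsCorrelation S →
      |∑ i, ∑ j, B i j * S i j| ≤ (Real.pi - 1) * rankOneMax B)
    (k : ℕ) (S B : Matrix (Fin k) (Fin k) ℝ) (hS : IsCorrelation S) (q q' : ℝ)
    (hq : ∀ x : Fin k → ℝ, (∀ i, x i = 1 ∨ x i = -1) →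
      q ≤ ∑ i, ∑ j, B i j * (x i * x j) ∧ ∑ i, ∑ j, B i j * (x i * x j) ≤ q') :
    Real.pi / 2 * q - (Real.pi / 2 - 1) * q' ≤ ∑ i, ∑ j, B i j * S i j ∧
      ∑ i, ∑ j, B i j * S i j ≤ Real.pi / 2 * q' - (Real.pi / 2 - 1) * q := by
  have hpi := Real.pi_gt_three
  have h0 := hq (fun _ => 1) (fun _ => Or.inl rfl)
  rcases Nat.eq_zero_or_pos k with rfl | hk
  · simp at h0 ⊢
    constructor <;> nlinarith [h0.1, h0.2]
  · have : NeZero k := ⟨by omega⟩
    set m : ℝ := (q + q') / 2 with hm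
    let B' : Matrix (Fin k) (Fin k) ℝ := fun i j => B i j - if i = 0 ∧ j = 0 then m else 0
    have hsum : ∀ T : Matrix (Fin k) (Fin k) ℝ, T 0 0 = 1 →
        ∑ i, ∑ j, B' i j * T i j = (∑ i, ∑ j, B i j * T i j) - m := by
      intro T hT
      have e1 : ∑ i : Fin k, ∑ j : Fin k, (if i = 0 ∧ j = 0 then m else 0) * T i j = m := by
        rw [Finset.sum_eq_single (0 : Fin k), Finset.sum_eq_single (0 : Fin k)]
        · simp [hT]
        · intro j _ hj; simp [hj]
        · intro h; exact absurd (Finset.mem_univ _) h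
        · intro i _ hi; simp [hi]
        · intro h; exact absurd (Finset.mem_univ _) h
      have e2 : ∑ i, ∑ j, B' i j * T i j = (∑ i, ∑ j, B i j * T i j) -
          ∑ i : Fin k, ∑ j : Fin k, (if i = 0 ∧ j = 0 then m else 0) * T i j := by
        rw [← Finset.sum_sub_distrib]
        refine Finset.sum_congr rfl fun i _ => ?_
        rw [← Finset.sum_sub_distrib]
        refine Finset.sum_congr rfl fun j _ => ?_
        show (B i j - if i = 0 ∧ j = 0 then m else 0) * T i j = _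
        ring
      rw [e2, e1]
    have hR : rankOneMax B' ≤ (q' - q) / 2 := by
      unfold rankOneMax
      apply csSup_le
      · exact ⟨_, fun _ => 1, fun _ => by simp, rfl⟩
      · rintro r ⟨x, hx, rfl⟩
        rw [rankOne_form, Real.norm_eq_abs]
        have hx' : ∀ i, x i = 1 ∨ x i = -1 := by
          intro i
          have h := hx i
          rw [Real.norm_eq_abs] at h
          exact eq_or_eq_neg_of_abs_eq h
        have h3 := hq x hx'
        have h4 := hsum (Matrix.of fun i j => x i * x j) (by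
          simp only [Matrix.of_apply]
          rcases hx' 0 with h | h <;> rw [h] <;> norm_num)
        simp only [Matrix.of_apply] at h4
        rw [h4, abs_le, hm]
        constructor <;> linarith [h3.1, h3.2]
    have h5 := hup k S B' hS
    rw [hsum S (hS.2 0), abs_le] at h5
    have h6 : (Real.pi - 1) * rankOneMax B' ≤ (Real.pi - 1) * ((q' - q) / 2) :=
      mul_le_mul_of_nonneg_left hR (by linarith)
    rw [hm] at h5
    constructor <;> nlinarith [h5.1, h5.2, h6]

end Pool.Agent.Y976.SG
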