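import Mathlib
import Pool.Agent.H809R2.GI.Defs

/-!
Project SG: the best constant in the symmetric Grothendieck inequality over the reals is `π - 1`.
-/

set_option autoImplicit false

namespace Pool.Agent.Y976.SG

open Pool.Agent.H809R2.GI

/-- `θ - sin θ cos θ` for `θ = arcsin t` -/
noncomputable def Psi (t : ℝ) : ℝ := Real.arcsin t - t * Real.sqrt (1 - t ^ 2)

/-- the sine of `arctan (r tan θ)` for `t = sin θ` -/
noncomputable def vr (r t : ℝ) : ℝ := r * t / Real.sqrt (1 - (1 - r ^ 2) * t ^ 2)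

/-- power series with nonnegative coefficients of sum one preserve correlation matrices -/
def S_PD : Prop := ∀ (k : ℕ) (S : Matrix (Fin k) (Fin k) ℝ), IsCorrelation S →
  ∀ (a : ℕ → ℝ), (∀ n, 0 ≤ a n) → HasSum a 1 → ∀ f : ℝ → ℝ,
    (∀ t : ℝ, |t| ≤ 1 → HasSum (fun n => a n * t ^ n) (f t)) →
      IsCorrelation (Matrix.of fun i j => f (S i j))

/-- entries of correlation matrices are at most one in modulus -/
def S_ENT : Prop := ∀ (k : ℕ) (S : Matrix (Fin k) (Fin k) ℝ), IsCorrelation S →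
  ∀ i j, |S i j| ≤ 1

/-- Grothendieck's identity -/
def S_GRO : Prop := ∀ (k : ℕ) (S B : Matrix (Fin k) (Fin k) ℝ), IsCorrelation S →
  |∑ i, ∑ j, B i j * Real.arcsin (S i j)| ≤ Real.pi / 2 * rankOneMax B

/-- the power series of `sin (Psi t)` has nonnegative coefficients -/
def S_SER : Prop := ∃ a : ℕ → ℝ, (∀ n, 0 ≤ a n) ∧ HasSum a 1 ∧
  ∀ t : ℝ, |t| ≤ 1 → HasSum (fun n => a n * t ^ n) (Real.sin (Psi t))

/-- the power series of `vr r` has nonnegative coefficients -/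
def S_VR : Prop := ∀ r : ℝ, 0 < r → r ≤ 1 → ∃ a : ℕ → ℝ, (∀ n, 0 ≤ a n) ∧ HasSum a 1 ∧
  ∀ t : ℝ, |t| ≤ 1 → HasSum (fun n => a n * t ^ n) (vr r t)

/-- first averaging -/
def S_AV1 : Prop := ∀ (ι : Type) [Fintype ι] (c t : ι → ℝ) (M : ℝ), (∀ i, |t i| ≤ 1) →
  (∀ r : ℝ, 0 < r → r ≤ 1 → |∑ i, c i * Psi (vr r (t i))| ≤ M) →
    ∀ r : ℝ, 0 < r → r < 1 →
      |∑ i, c i * (Real.arcsin (vr r (t i)) - r * Real.arcsin (t i))| ≤ (1 - r) * M

/-- second averaging -/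
def S_AV2 : Prop := ∀ (ι : Type) [Fintype ι] (c t : ι → ℝ) (M : ℝ), (∀ i, |t i| ≤ 1) →
  (∀ r : ℝ, 0 < r → r < 1 →
    |∑ i, c i * (Real.arcsin (vr r (t i)) - r * Real.arcsin (t i))| ≤ (1 - r) * M) →
      |∑ i, c i * (Real.arcsin (t i) - t i)| ≤ (1 - 2 / Real.pi) * M

end Pool.Agent.Y976.SG
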